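import Pool.Agent.L7h19.EA.Stm
import Pool.Agent.L7h60.FD.Exf

/-!
# Project EA, part EXE: the expansion
-/

set_option autoImplicit false
set_option linter.all false

namespace Pool.Agent.L7h65.EA

open Finset Polynomial Pool.Agent.W262.RK Pool.Agent.W108.RK Pool.Agent.W762.RK2 Pool.Agent.L7h19.RP
  Pool.Agent.L7h65.IS Pool.Agent.L7h65.IT Pool.Agent.L7h56.IK
open Pool.Agent.L7h19.IT (eE)
open Pool.Agent.L7h19.IK (FR Lab LR vR)
open Pool.Agent.L7h19.FD (Pat WE avE WSym)
open Pool.Agent.L7h19.RP.AT (gm)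
open Pool.Agent.L7h19.RH (Q0)
open Pool.Agent.L7h60.FD (pt Q0_Dl WE_Dl sum_pw3)
open Pool.Agent.L7h19.EA (cpr RSym bE QE S_EXE)

variable {J : Type} [Fintype J] [DecidableEq J] {z y r : ℕ}

/-- the prime has the mark -/
def alE (ρ : J → Pat → Bool) (o : Option J) (π : Pat) : Bool := tm (fun j => ρ j π) o

lemma cpr_Dl (ρ : J → Pat → Bool) (ξ : Pr z y → Option J) (η : Pr z y → Pat) :
    cpr ρ (Dl ξ) (pt η) = nb fun p => alE ρ (ξ p) (η p) := by
  have h := Pool.Agent.L7h19.RP.prod_gm
    (fun j (p : ℕ) => if ρ j (fun i => decide (p ∈ pt η i)) = true then (p : ℝ) else 1) ξ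
  have h1 : ((cpr ρ (Dl ξ) (pt η) : ℕ) : ℝ) = ∏ j, gm (fun (p : ℕ) =>
      if ρ j (fun i => decide (p ∈ pt η i)) = true then (p : ℝ) else 1) (Dl ξ j) := by
    unfold cpr gm
    rw [Nat.cast_prod]
    refine Finset.prod_congr rfl fun j _ => ?_
    rw [Nat.cast_prod, Finset.prod_filter]
  have h2 : ((nb fun p => alE ρ (ξ p) (η p) : ℕ) : ℝ) =
      ∏ p : Pr z y, (ξ p).elim 1 fun j =>
        if ρ j (fun i => decide ((p : ℕ) ∈ pt η i)) = true then ((p : ℕ) : ℝ) else 1 := by
    unfold nb
    rw [Nat.cast_prod]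
    refine Finset.prod_congr rfl fun p _ => ?_
    have e : (fun i => decide ((p : ℕ) ∈ pt η i)) = η p := by
      funext i
      unfold pt
      simp only [mem_Ts, Bool.decide_eq_true]
    beta_reduce
    rw [e]
    generalize ξ p = o
    cases o with
    | none => simp [alE, tm]
    | some j =>
      simp only [Option.elim, alE, tm]
      split_ifs with h0 <;> simp [h0]
  have h3 := h1.trans (h.trans h2.symm)
  exact_mod_cast h3

/-- the weight of a prime with the pattern `π`, the class `o` and the marks `m` -/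
noncomputable def tE (c w : J → Pat → Bool) (W : J → Pat → ℕ → ℝ) (θ : ℕ → ℤ) (π : Pat) (p : ℕ)
    (o : Option J) (m : Mk r) : ℝ :=
  if (∀ i, π i = true → o.isSome = true) ∧
      Pool.Agent.L7h56.IK.Cd (alE c o π) (alE w o π) m then
    ((if alE w o π = true then (1 / 2 ^ r : ℝ) else 1) * (o.elim 1 fun j => W j π p)) *
      (if m.1 ⬝ᵥ m.2 ≠ 0 then (if π 0 = true then -1 else 1) * (θ p : ℝ) else 1) else 0

/-- the weights with the marks -/
noncomputable def TE (c w : J → Pat → Bool) (W : J → Pat → ℕ → ℝ) (θ : ℕ → ℤ) (p : ℕ)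
    (o : Option J) (m : Mk r) : ℝ := ∑ π : Pat, tE c w W θ π p o m

lemma lhsE (c w : J → Pat → Bool) (W : J → Pat → ℕ → ℝ) (θ : ℕ → ℤ)
    (hθ : ∀ p, θ p = 1 ∨ θ p = -1) (τ : Bool) (ξ : Pr z y → Option J) :
    avE W (fun E => FR τ (fun p => eE (E 0) p * θ p) r (cpr c (Dl ξ) E) (cpr w (Dl ξ) E)) (Dl ξ) =
      ∑ μ : Pr z y → Mk r, (∏ p : Pr z y, TE c w W θ p (ξ p) (μ p)) * GM5 τ μ := by
  have hε : ∀ E : Finset ℕ, ∀ p, eE E p * θ p = 1 ∨ eE E p * θ p = -1 := by
    intro E p
    unfold eE
    rcases hθ p with h | h <;> rw [h] <;> split_ifs <;> norm_num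
  unfold avE
  rw [Q0_Dl, sum_pw3]
  have h1 : ∀ η : Pr z y → Pat, (if ∀ p i, η p i = true → (ξ p).isSome = true then
      FR τ (fun p => eE (pt η 0) p * θ p) r (cpr c (Dl ξ) (pt η)) (cpr w (Dl ξ) (pt η)) *
        WE W (Dl ξ) (pt η) else 0) =
      ∑ μ : Pr z y → Mk r, (∏ p : Pr z y, tE c w W θ (η p) p (ξ p) (μ p)) * GM5 τ μ := by
    intro η
    by_cases hη : ∀ p i, η p i = true → (ξ p).isSome = true
    · rw [if_pos hη, cpr_Dl, cpr_Dl, FR_eq τ _ (hε (pt η 0)), WE_Dl, Finset.mul_sum,
        Finset.sum_mul]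
      refine Finset.sum_congr rfl fun μ _ => ?_
      by_cases hC : ∀ p : Pr z y,
        Pool.Agent.L7h56.IK.Cd (alE c (ξ p) (η p)) (alE w (ξ p) (η p)) (μ p)
      · have e1 : ∀ p : Pr z y, tE c w W θ (η p) p (ξ p) (μ p) =
            ((if alE w (ξ p) (η p) = true then (1 / 2 ^ r : ℝ) else 1) *
              ((ξ p).elim 1 fun j => W j (η p) p)) *
            (if (μ p).1 ⬝ᵥ (μ p).2 ≠ 0 then ((eE (pt η 0) p * θ p : ℤ) : ℝ) else 1) := by
          intro p
          refine (if_pos ⟨hη p, hC p⟩).trans ?_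
          have e2 : ((eE (pt η 0) p * θ p : ℤ) : ℝ) =
              (if η p 0 = true then -1 else 1) * (θ p : ℝ) := by
            unfold eE pt
            simp only [mem_Ts]
            split_ifs <;> push_cast <;> ring
          rw [e2]
        rw [Finset.prod_congr rfl fun p _ => e1 p, Finset.prod_mul_distrib,
          Finset.prod_mul_distrib]
        unfold GM5
        by_cases hS : Sp μ
        · rw [if_pos ⟨hC, hS⟩, if_pos hS, DR_split]
          ring
        · rw [if_neg fun h => hS h.2, if_neg hS]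
          ring
      · rw [if_neg fun h => hC h.1, mul_zero, zero_mul]
        simp only [not_forall] at hC
        obtain ⟨p, hp⟩ := hC
        rw [Finset.prod_eq_zero (mem_univ p) (if_neg fun h => hp h.2), zero_mul]
    · rw [if_neg hη]
      symm
      refine Finset.sum_eq_zero fun μ _ => ?_
      simp only [not_forall] at hη
      obtain ⟨p, i, hp1, hp2⟩ := hη
      rw [Finset.prod_eq_zero (mem_univ p) (if_neg fun h => hp2 (h.1 i hp1)), zero_mul]
  rw [Finset.sum_congr rfl fun η _ => h1 η, Finset.sum_comm]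
  refine Finset.sum_congr rfl fun μ _ => ?_
  rw [← Finset.sum_mul]
  congr 1
  unfold TE
  rw [Finset.prod_univ_sum, Fintype.piFinset_univ]

/-- the local weights -/
noncomputable def WAE (c w : J → Pat → Bool) (W : J → Pat → ℕ → ℝ) (p : ℕ)
    (x : Option (Lab J r)) : ℝ :=
  x.elim 1 fun i => if i.2.1.1 ⬝ᵥ i.2.1.2 = 0 then bE W c w r i p else 0

lemma TE_some (c w : J → Pat → Bool) (W : J → Pat → ℕ → ℝ) (θ : ℕ → ℤ)
    (hW : WSym W (fun _ => 3)) (hc : RSym c) (hw : RSym w) (p : ℕ)
    (j : J) (v x : Ve r) :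
    TE c w W θ p (some j) (v, x) = if v ⬝ᵥ x = 0 then
      ∑ π : Pat, (if (v = 0 ∨ c j π = true) ∧ (x = 0 ∨ w j π = true) then
        (if w j π = true then 1 / 2 ^ r else 1) * W j π p else 0) else 0 := by
  unfold TE
  by_cases hvx : v ⬝ᵥ x = 0
  · rw [if_pos hvx]
    refine Finset.sum_congr rfl fun π _ => ?_
    unfold tE
    simp only [Option.elim]
    rw [if_neg (not_not.2 hvx), mul_one]
    refine if_congr ?_ rfl rfl
    constructor
    · rintro ⟨-, h1, h2⟩
      refine ⟨?_, ?_⟩
      · by_cases hv : v = 0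
        · exact Or.inl hv
        · exact Or.inr (h1 hv)
      · by_cases hx : x = 0
        · exact Or.inl hx
        · exact Or.inr (h2 hx)
    · rintro ⟨h1, h2⟩
      refine ⟨fun _ _ => rfl, fun hv => ?_, fun hx => ?_⟩
      · exact h1.resolve_left hv
      · exact h2.resolve_left hx
  · rw [if_neg hvx]
    have hneg : ∀ π : Pat, tE c w W θ (fun i => !(π i)) p (some j) (v, x) =
        -tE c w W θ π p (some j) (v, x) := by
      intro π
      have e2 : alE c (some j) (fun i => !(π i)) = alE c (some j) π := hc j π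
      have e2' : alE w (some j) (fun i => !(π i)) = alE w (some j) π := hw j π
      unfold tE
      rw [e2, e2']
      simp only [Option.elim, hW j rfl π p, Option.isSome_some, implies_true, true_and]
      rw [if_pos hvx, if_pos hvx]
      by_cases hC : Pool.Agent.L7h56.IK.Cd (alE c (some j) π) (alE w (some j) π) (v, x)
      · rw [if_pos hC, if_pos hC]
        have h0 : π 0 = true ∨ π 0 = false := by
          cases π 0
          · exact Or.inr rfl
          · exact Or.inl rfl
        rcases h0 with h0 | h0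
        · have a1 : (if (!(π 0)) = true then (-1 : ℝ) else 1) = 1 := by simp [h0]
          have a2 : (if π 0 = true then (-1 : ℝ) else 1) = -1 := by simp [h0]
          rw [a1, a2]
          ring
        · have a1 : (if (!(π 0)) = true then (-1 : ℝ) else 1) = -1 := by simp [h0]
          have a2 : (if π 0 = true then (-1 : ℝ) else 1) = 1 := by simp [h0]
          rw [a1, a2]
          ring
      · rw [if_neg hC, if_neg hC, neg_zero]
    let e5 : Pat ≃ Pat :=
      { toFun := fun π i => !(π i)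
        invFun := fun π i => !(π i)
        left_inv := fun π => funext fun i => by simp
        right_inv := fun π => funext fun i => by simp }
    have h5 := Equiv.sum_comp e5
      (fun π : Pat => tE c w W θ π p (some j) (v, x))
    have h6 : ∑ π : Pat, tE c w W θ (e5 π) p (some j) (v, x) =
        -∑ π : Pat, tE c w W θ π p (some j) (v, x) := by
      rw [← Finset.sum_neg_distrib]
      exact Finset.sum_congr rfl fun π _ => hneg π
    rw [h6] at h5
    linarith

lemma TE_none (c w : J → Pat → Bool) (W : J → Pat → ℕ → ℝ) (θ : ℕ → ℤ) (p : ℕ) (m : Mk r) :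
    TE c w W θ p none m = if m = (0, 0) then 1 else 0 := by
  unfold TE
  have hal : ∀ π, alE c none π = false := fun π => rfl
  have ho : ∀ π, alE w none π = false := fun π => rfl
  rw [Finset.sum_eq_single (fun _ => false)]
  · unfold tE
    rw [hal, ho]
    by_cases hm : m = (0, 0)
    · rw [if_pos hm, hm, if_pos ⟨fun i h => absurd h Bool.false_ne_true, fun h => absurd rfl h,
        fun h => absurd rfl h⟩]
      simp
    · rw [if_neg hm, if_neg]
      rintro ⟨-, h1, h2⟩
      apply hm
      refine Prod.ext ?_ ?_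
      · by_contra h3
        exact absurd (h1 h3) (by decide)
      · by_contra h3
        exact absurd (h2 h3) (by decide)
  · intro π _ hπ
    refine if_neg fun h => hπ ?_
    funext i
    by_contra h3
    have h4 : π i = true := by
      cases h5 : π i
      · exact absurd h5 h3
      · rfl
    exact absurd (h.1 i h4) Bool.false_ne_true
  · intro h
    exact absurd (mem_univ _) h

lemma fiberE (c w : J → Pat → Bool) (W : J → Pat → ℕ → ℝ) (θ : ℕ → ℤ)
    (hW : WSym W (fun _ => 3)) (hc : RSym c) (hw : RSym w) (p : ℕ) (x : Option J × Mk r) :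
    ∑ u ∈ univ.filter (fun u : Option (Lab J r) => fk5 u = x), WAE c w W p u =
      TE c w W θ p x.1 x.2 := by
  obtain ⟨x, v, t⟩ := x
  rw [Finset.sum_filter, Fintype.sum_option]
  cases x with
  | none =>
    have h1 : ∑ i : Lab J r, (if fk5 (some i) = ((none : Option J), ((v, t) : Mk r)) then
        WAE c w W p (some i) else 0) = 0 := by
      refine Finset.sum_eq_zero fun i _ => if_neg ?_
      simp [fk5]
    rw [h1, add_zero, TE_none]
    simp only [fk5, Option.map_none, Option.elim, Prod.mk.injEq, true_and, WAE]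
    refine if_congr ?_ rfl rfl
    exact ⟨fun h => ⟨h.1.symm, h.2.symm⟩, fun h => ⟨h.1.symm, h.2.symm⟩⟩
  | some j =>
    have h0 : (if fk5 (none : Option (Lab J r)) = (some j, ((v, t) : Mk r)) then
        WAE c w W p (none : Option (Lab J r)) else 0) = 0 := by
      rw [if_neg]
      simp [fk5]
    rw [h0, zero_add, TE_some c w W θ hW hc hw]
    have h1 : ∀ F : Lab J r → ℝ, ∑ i : Lab J r, F i = ∑ j' : J, ∑ m : Mk r, ∑ h : Bool, F (j', m, h) := by
      intro F
      rw [Fintype.sum_prod_type]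
      refine Finset.sum_congr rfl fun j' _ => ?_
      rw [Fintype.sum_prod_type]
    rw [h1, Finset.sum_eq_single j]
    · rw [Finset.sum_eq_single (v, t)]
      · have h2 : ∀ h : Bool, (if fk5 (some ((j, (v, t), h) : Lab J r)) = (some j, ((v, t) : Mk r)) then
            WAE c w W p (some ((j, (v, t), h) : Lab J r)) else 0) =
            if v ⬝ᵥ t = 0 then bE W c w r (j, (v, t), h) p else 0 := by
          intro h
          exact if_pos rfl
        rw [Finset.sum_congr rfl fun h _ => h2 h, Fintype.sum_bool]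
        by_cases hvt : v ⬝ᵥ t = 0
        · rw [if_pos hvt, if_pos hvt, if_pos hvt]
          unfold bE
          rw [← Finset.sum_add_distrib]
          refine Finset.sum_congr rfl fun π _ => ?_
          split_ifs <;> ring
        · rw [if_neg hvt, if_neg hvt, if_neg hvt, add_zero]
      · intro m _ hm
        refine Finset.sum_eq_zero fun h _ => if_neg fun h' => hm ?_
        simp only [fk5, Option.map_some, Option.elim, Prod.mk.injEq, Option.some.injEq] at h'
        exact h'.2
      · intro h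
        exact absurd (mem_univ _) h
    · intro j' _ hj
      refine Finset.sum_eq_zero fun m _ => Finset.sum_eq_zero fun h _ => if_neg fun h' => hj ?_
      simp only [fk5, Option.map_some, Option.elim, Prod.mk.injEq, Option.some.injEq] at h'
      exact h'.1
    · intro h
      exact absurd (mem_univ _) h

lemma rhsE (c w : J → Pat → Bool) (W : J → Pat → ℕ → ℝ) (τ : Bool) (l : Pr z y → Option (Lab J r)) :
    (if QE r (univ.filter (fun i => Dl l i ≠ 1)) then
      (∏ i : Lab J r, gm (bE W c w r i) (Dl l i)) *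
        Pool.Agent.W262.RK.Sym (LR τ r) (fun _ => 1) (Dl l) else 0) =
      (∏ p : Pr z y, WAE c w W p (l p)) * GM5 τ fun p => (fk5 (l p)).2 := by
  have hn : ∀ i : Lab J r, Dl l i ≠ 1 ↔ ∃ p, l p = some i := by
    intro i
    unfold Dl
    rw [nb_ne_one]
    simp only [decide_eq_true_eq]
  have hm : ∀ i : Lab J r, i ∈ univ.filter (fun i => Dl l i ≠ 1) ↔ ∃ p, l p = some i := by
    intro i
    rw [mem_filter, ← hn]
    exact ⟨fun h => h.2, fun h => ⟨mem_univ _, h⟩⟩
  have hA : (∀ i ∈ univ.filter (fun i => Dl l i ≠ 1), i.2.1.1 ⬝ᵥ i.2.1.2 = 0) ↔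
      ∀ i : Lab J r, (∃ p, l p = some i) → i.2.1.1 ⬝ᵥ i.2.1.2 = 0 :=
    forall_congr' fun i => imp_congr (hm i) Iff.rfl
  have hc : (∀ w : Fin r → ZMod 2, w ≠ 0 → ∃ i ∈ univ.filter (fun i => Dl l i ≠ 1), w ⬝ᵥ i.2.1.2 ≠ 0) ↔
      Sp fun p => (fk5 (l p)).2 := by
    unfold Sp
    refine forall_congr' fun w => imp_congr Iff.rfl ?_
    constructor
    · rintro ⟨i, h1, h2⟩
      obtain ⟨p, hp⟩ := (hm i).1 h1
      refine ⟨p, ?_⟩
      show w ⬝ᵥ (fk5 (l p)).2.2 ≠ 0
      rw [hp]
      exact h2
    · rintro ⟨p, hp⟩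
      have hp' : w ⬝ᵥ (fk5 (l p)).2.2 ≠ 0 := hp
      cases hx : l p with
      | none =>
        rw [hx] at hp'
        simp [fk5] at hp'
      | some i =>
        rw [hx] at hp'
        exact ⟨i, (hm i).2 ⟨p, hx⟩, hp'⟩
  by_cases hv : ∀ i : Lab J r, (∃ p, l p = some i) → i.2.1.1 ⬝ᵥ i.2.1.2 = 0
  · have hW : ∏ p : Pr z y, WAE c w W p (l p) =
        ∏ p : Pr z y, (l p).elim 1 fun i => bE W c w r i p := by
      refine Finset.prod_congr rfl fun p _ => ?_
      cases hx : l p with
      | none => rfl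
      | some i =>
        simp only [WAE, Option.elim]
        rw [if_pos (hv i ⟨p, hx⟩)]
    rw [Pool.Agent.L7h19.RP.prod_gm (fun i : Lab J r => bE W c w r i) l,
      Sym_eq5 (fun _ => true) (fun _ => true) τ l
        fun p i h => ⟨fun _ => rfl, fun _ => rfl, hv i ⟨p, h⟩⟩, hW]
    unfold GM5
    by_cases h : Sp fun p => (fk5 (l p)).2
    · rw [if_pos (show QE r _ from ⟨hA.2 hv, hc.2 h⟩), if_pos h]
    · rw [if_neg (fun h' : QE r _ => h (hc.1 h'.2)), if_neg h, mul_zero]
  · rw [if_neg fun h : QE r _ => hv (hA.1 h.1)]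
    simp only [not_forall] at hv
    obtain ⟨i, ⟨p, hp⟩, hi⟩ := hv
    have h0 : ∏ p : Pr z y, WAE c w W p (l p) = 0 := by
      refine Finset.prod_eq_zero (mem_univ p) ?_
      simp only [WAE, hp, Option.elim]
      rw [if_neg hi]
    rw [h0, zero_mul]

/-- **S_EXE** -/
theorem s_EXE : S_EXE := by
  classical
  intro J _ _ c w W θ τ r z y hθ _ hW hc hw
  rw [sum_Tup fun s => avE W (fun E =>
      FR τ (fun p => eE (E 0) p * θ p) r (cpr c s E) (cpr w s E)) s,
    Finset.sum_filter,
    sum_Tup fun d : Lab J r → ℕ =>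
      if QE r (univ.filter (fun i => d i ≠ 1)) then
        (∏ i : Lab J r, gm (bE W c w r i) (d i)) *
          Pool.Agent.W262.RK.Sym (LR τ r) (fun _ => 1) d else 0]
  rw [Finset.sum_congr rfl fun ξ _ => lhsE c w W θ hθ τ ξ,
    Finset.sum_congr rfl fun l _ => rhsE c w W τ l]
  rw [← Finset.sum_fiberwise univ (fun (l : Pr z y → Option (Lab J r)) => fun p => fk5 (l p))]
  have h1 : ∀ ζ : Pr z y → Option J × Mk r,
      ∑ l ∈ univ.filter (fun l : Pr z y → Option (Lab J r) => (fun p => fk5 (l p)) = ζ),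
        (∏ p : Pr z y, WAE c w W p (l p)) * (GM5 τ fun p => (fk5 (l p)).2) =
      (∏ p : Pr z y, TE c w W θ p (ζ p).1 (ζ p).2) * GM5 τ fun p => (ζ p).2 := by
    intro ζ
    have h2 : (univ.filter fun l : Pr z y → Option (Lab J r) => (fun p => fk5 (l p)) = ζ) =
        Fintype.piFinset (fun p => univ.filter (fun x : Option (Lab J r) => fk5 x = ζ p)) := by
      ext l
      simp only [Finset.mem_filter, Finset.mem_univ, true_and, Fintype.mem_piFinset, funext_iff]
    rw [Finset.prod_congr rfl fun (p : Pr z y) _ => (fiberE c w W θ hW hc hw p (ζ p)).symm,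
      Finset.prod_univ_sum, Finset.sum_mul, h2]
    refine Finset.sum_congr rfl fun l hl => ?_
    rw [Fintype.mem_piFinset] at hl
    have h3 : ∀ p, fk5 (l p) = ζ p := fun p => (Finset.mem_filter.1 (hl p)).2
    simp only [h3]
  rw [Finset.sum_congr rfl fun ζ _ => h1 ζ,
    sum_arr (fun (ξ : Pr z y → Option J) (μ : Pr z y → Mk r) =>
      (∏ p : Pr z y, TE c w W θ p (ξ p) (μ p)) * GM5 τ μ)]

end Pool.Agent.L7h65.EA
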