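import Pool.Agent.L7h19.EA.Stm
import Pool.Agent.L7h78.FT.Grr
import Pool.Agent.L7h89.IT.Ava

/-!
# Project EA, part GFE: growth of the majorant
-/

set_option autoImplicit false
set_option linter.unusedSectionVars false

namespace Pool.Agent.L7h65.EA

open Finset Polynomial Pool.Agent.W262.RK Pool.Agent.W307.RT Pool.Agent.L7h19.RP Pool.Agent.L7h19.IS
open Pool.Agent.L7h19.IT Pool.Agent.L7h19.EA
open Pool.Agent.L7h19.RH (Q0)
open Pool.Agent.L7h19.FD (Pat)
open Pool.Agent.L7h78.FT (TF tf)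
open Pool.Agent.L7h89.IT.Ava (N3_congr G3_mul_le G3_nonneg)

variable {J : Type} [Fintype J] [DecidableEq J]

lemma pf_Q0 {s : J → ℕ} (h0 : ∀ j, s j ≠ 0) {j : J} {p : ℕ} (hp : p ∈ (s j).primeFactors) :
    p ∈ Q0 s :=
  Nat.primeFactors_mono (dvd_prod_of_mem s (mem_univ j)) (prod_ne_zero_iff.2 fun j _ => h0 j) hp

lemma cpr_inter (ρ : J → Pat → Bool) {s : J → ℕ} (h0 : ∀ j, s j ≠ 0) (E : Fin 3 → Finset ℕ) :
    cpr ρ s (fun i => E i ∩ Q0 s) = cpr ρ s E := by
  unfold cpr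
  refine prod_congr rfl fun j _ => ?_
  refine prod_congr ?_ fun _ _ => rfl
  refine filter_congr fun p hp => ?_
  have hpQ : p ∈ Q0 s := pf_Q0 h0 hp
  have h : (fun i => decide (p ∈ E i ∩ Q0 s)) = fun i => decide (p ∈ E i) := by
    funext i
    simp [hpQ]
  rw [h]

lemma cpr_mul (ρ : J → Pat → Bool) {s e : J → ℕ} (h : ∀ j, Squarefree (s j * e j))
    (E : Fin 3 → Finset ℕ) :
    cpr ρ (fun j => s j * e j) E = cpr ρ s E * cpr ρ e E := by
  unfold cpr
  rw [← prod_mul_distrib]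
  refine prod_congr rfl fun j _ => ?_
  have hc := Nat.coprime_of_squarefree_mul (h j)
  rw [hc.primeFactors_mul, filter_union, prod_union]
  exact disjoint_filter_filter hc.disjoint_primeFactors

lemma cpr_dvd (ρ : J → Pat → Bool) (s : J → ℕ) (E : Fin 3 → Finset ℕ) :
    cpr ρ s E ∣ ∏ j, s j := by
  unfold cpr
  refine prod_dvd_prod_of_dvd _ _ fun j _ => ?_
  exact (prod_dvd_prod_of_subset _ _ _ (filter_subset _ _)).trans (Nat.prod_primeFactors_dvd (s j))

theorem s_GFE : S_GFE := by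
  intro J _ _ cR rR z y s e E _ hT
  have T := tf hT
  have hse : ∀ j, Squarefree (s j * e j) := fun j =>
    T.sqf.squarefree_of_dvd (dvd_prod_of_mem (fun j => s j * e j) (mem_univ j))
  have hS0 : ∏ j, s j ≠ 0 := prod_ne_zero_iff.2 fun j _ => T.s0 j
  have hE0 : ∏ j, e j ≠ 0 := prod_ne_zero_iff.2 fun j _ => T.e0 j
  refine ⟨?_, ?_⟩
  · rw [cpr_inter cR T.s0 E, cpr_inter rR T.s0 E]
    have hsgn : ∀ p ∈ Q0 s, eE (E 0) p = eE (E 0 ∩ Q0 s) p := by
      intro p hp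
      unfold eE
      by_cases h1 : p ∈ E 0
      · rw [if_pos h1, if_pos (mem_inter.2 ⟨h1, hp⟩)]
      · rw [if_neg h1, if_neg fun h2 => h1 (mem_inter.1 h2).1]
    have hm0 : ∀ ρ : J → Pat → Bool, cpr ρ s E ≠ 0 := fun ρ h =>
      hS0 (by have := cpr_dvd ρ s E; rw [h] at this; exact zero_dvd_iff.1 this)
    have hQ : ∀ (ρ : J → Pat → Bool) (p : ℕ), p ∈ (cpr ρ s E).primeFactors → p ∈ Q0 s :=
      fun ρ p hp => Nat.primeFactors_mono (cpr_dvd ρ s E) hS0 hp
    unfold G3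
    rw [N3_congr (ε := eE (E 0)) (ε' := eE (E 0 ∩ Q0 s)) (fun p h1 _ => hsgn p (hQ _ p h1)) (hm0 _),
      N3_congr (ε := eE' (E 0)) (ε' := eE' (E 0 ∩ Q0 s)) (fun p h1 _ => by
        unfold eE'
        rw [hsgn p (hQ _ p h1)]) (hm0 _)]
  · rw [cpr_mul cR hse E, cpr_mul rR hse E]
    have hsq : ∀ ρ : J → Pat → Bool, Squarefree (cpr ρ s E * cpr ρ e E) := fun ρ =>
      T.sqm.squarefree_of_dvd (mul_dvd_mul (cpr_dvd ρ s E) (cpr_dvd ρ e E))
    have hcard : ∀ ρ : J → Pat → Bool, (cpr ρ e E).primeFactors.card ≤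
        ∑ j, (e j).primeFactors.card := by
      intro ρ
      rw [← T.card_e]
      exact card_le_card (Nat.primeFactors_mono (cpr_dvd ρ e E) hE0)
    refine (G3_mul_le (hsq cR) (hsq rR) (E 0)).trans ?_
    refine mul_le_mul_of_nonneg_right ?_ (G3_nonneg _ _ _)
    have h1 := hcard cR
    have h2 := hcard rR
    set N := ∑ j, (e j).primeFactors.card with hN
    calc (4 : ℝ) ^ ((cpr cR e E).primeFactors.card + (cpr rR e E).primeFactors.card) ≤
        4 ^ (N + N) := pow_le_pow_right₀ (by norm_num) (by omega)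
      _ = 16 ^ N := by rw [pow_add, ← mul_pow]; norm_num
      _ ≤ 64 ^ N := pow_le_pow_left₀ (by norm_num) (by norm_num) N

end Pool.Agent.L7h65.EA
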