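import Pool.Agent.L7h24.EA.Loc

/-!
# Project EA, part N4
-/

set_option autoImplicit false
set_option linter.all false

namespace Pool.Agent.L7h65.EA.Four

open Pool.Agent.L7h19.EA
open Pool.Agent.L7h24.EA

lemma not_dvd_mul {p : ℕ} (hp : p.Prime) {m n : ℤ} (h1 : ¬ (p : ℤ) ∣ m) (h2 : ¬ (p : ℤ) ∣ n) :
    ¬ (p : ℤ) ∣ m * n := fun h =>
  ((Nat.prime_iff_prime_int.1 hp).dvd_or_dvd h).elim h1 h2

lemma VG.of_sq {p : ℕ} [hp : Fact p.Prime] {w : ℚ_[p]} {k l : ℤ} (h : VG (w ^ 2) k)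
    (hl : 2 * l ≤ k + 1) : VG w l := by
  by_cases hw : w = 0
  · rw [hw]
    exact VG.zero l
  · have h1 := VE.of_ne hw
    have h3 := h.le_of_VE (h1.pow 2)
    push_cast at h3
    exact h1.ge.mono (by omega)

/-- either the valuation is `k`, or at least `k + 1` -/
lemma VG.split {p : ℕ} [hp : Fact p.Prime] {w : ℚ_[p]} {k : ℤ} (h : VG w k) :
    VE w k ∨ VG w (k + 1) := by
  by_cases hw : w = 0
  · right
    rw [hw]
    exact VG.zero _
  · have h1 := VE.of_ne hw
    have h3 := h.le_of_VE h1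
    rcases eq_or_lt_of_le h3 with h4 | h4
    · left
      rwa [← h4] at h1
    · right
      exact h1.ge.mono (by omega)

theorem s_N4 : S_N4 := by
  intro p hp a b h2 hb0 ha ha2 hb3
  obtain ⟨a', rfl⟩ := ha
  have hpz : (p : ℤ) ≠ 0 := by exact_mod_cast hp.out.ne_zero
  have hp0 : (p : ℚ_[p]) ≠ 0 := VE.prime.ne_zero
  have ha' : ¬ (p : ℤ) ∣ a' := by
    intro h
    apply ha2
    rw [pow_two]
    exact mul_dvd_mul_left _ h
  have hp2 : ¬ (p : ℤ) ∣ 2 := by
    intro h
    have h6 : p ∣ 2 := by exact_mod_cast h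
    exact h2 ((Nat.prime_dvd_prime_iff_eq hp.out Nat.prime_two).1 h6)
  set β : ℕ := padicValInt p b with hβ
  have hbv : VE (b : ℚ_[p]) β := VE_padicValInt hb0
  obtain ⟨b', hb'⟩ : (p : ℤ) ^ β ∣ b := padicValInt_dvd b
  have hbu : VE (b' : ℚ_[p]) 0 := by
    have h1 : (b' : ℚ_[p]) = ((p : ℚ_[p]) ^ β)⁻¹ * (b : ℚ_[p]) := by
      rw [hb']
      push_cast
      rw [inv_mul_cancel_left₀ (pow_ne_zero _ hp0)]
    rw [h1]
    have h3 := ((VE.prime (p := p)).pow β).inv.mul hbv
    have e : (-((β : ℤ) * 1) + (β : ℤ)) = 0 := by ring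
    rwa [e] at h3
  have hbb : ¬ (p : ℤ) ∣ b' := by
    intro h
    have h1 : VG (b' : ℚ_[p]) 1 := by
      have := VG_dvd (p := p) (n := b') (k := 1) (by simpa using h)
      exact_mod_cast this
    have := h1.le_of_VE hbu
    omega
  have hup : up p b = b' := by
    unfold up
    exact Int.ediv_eq_of_eq_mul_right (pow_ne_zero _ hpz) hb'
  rw [hup, Int.mul_ediv_cancel_left _ hpz]
  have hna : ¬ (p : ℤ) ∣ -a' := by rwa [dvd_neg]
  set A : ℚ_[p] := (((p : ℤ) * a' : ℤ) : ℚ_[p]) with hA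
  have hAe : A = p * (a' : ℚ_[p]) := by
    rw [hA]
    push_cast
    ring
  have hAv : VE A 1 := by
    rw [hAe]
    simpa using (VE.prime (p := p)).mul (VE_unit ha')
  have h2v : VE (2 : ℚ_[p]) 0 := by
    have := VE_unit (p := p) hp2
    exact_mod_cast this
  have h20 : (2 : ℚ_[p]) ≠ 0 := h2v.ne_zero
  have h4v : VE (4 : ℚ_[p]) 0 := by
    have h1 := h2v.mul h2v
    have e : (2 : ℚ_[p]) * 2 = 4 := by norm_num
    rwa [e, add_zero] at h1
  have hβ3 : 3 ≤ β := by
    have h1 : VG (b : ℚ_[p]) 3 := by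
      have := VG_dvd (p := p) (n := b) (k := 3) hb3
      exact_mod_cast this
    have := h1.le_of_VE hbv
    omega
  set B : ℚ_[p] := (b : ℚ_[p]) with hB
  have hBe : B = (p : ℚ_[p]) ^ β * (b' : ℚ_[p]) := by
    rw [hB]
    conv_lhs => rw [hb']
    push_cast
    ring
  have hna0 : ((-a' : ℤ) : ℚ_[p]) ≠ 0 := (VE_unit (p := p) hna).ne_zero
  have hb'0 : (b' : ℚ_[p]) ≠ 0 := hbu.ne_zero
  -- the four cases
  have core : ∀ x : ℚ_[p], Pt p ((p : ℤ) * a') b x →
      (x.valuation ≤ 0 ∧ IsSquare x) ∨ (x.valuation = 1 ∧ VG (x + A) 2) ∨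
      ((β : ℤ) ≤ x.valuation ∧ IsSquare (B * x)) ∨
      (x.valuation = (β : ℤ) - 1 ∧ IsSquare ((A * x) * (-B))) := by
    intro x hx
    have hv := VE.of_ne hx.1
    rcases le_or_gt x.valuation 0 with h | h
    · exact Or.inl ⟨h, pt_cub h2 hx hv hAv.ge hbv.ge (by omega) (by omega)⟩
    right
    rcases eq_or_lt_of_le (show (1 : ℤ) ≤ x.valuation by omega) with h1 | h1
    · left
      refine ⟨h1.symm, ?_⟩
      rw [← h1] at hv
      rcases VG.split (hv.ge.add hAv.ge) with h3 | h3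
      · exfalso
        obtain ⟨hx0, y, hy⟩ := hx
        rw [← hA] at hy
        have h4 : IsSquare (x * (x * (x + A)) + x * B) := ⟨y, by rw [← pow_two, hy]; ring⟩
        have h5 := (dom h2 (hv.mul (hv.mul h3)) ((hv.mul hbv).ge.mono (by omega))).1 h4
        have h6 := even_of_sq (hv.mul (hv.mul h3)) h5
        exact absurd h6 (by decide)
      · exact h3.mono (by norm_num)
    right
    rcases lt_trichotomy x.valuation ((β : ℤ) - 1) with h3 | h3 | h3
    · exfalso
      have h4 := pt_quad h2 hx hv hAv hbv.ge (by omega) (by omega)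
      exact absurd (even_of_sq hAv h4) (by decide)
    · right
      refine ⟨h3, ?_⟩
      rw [h3] at hv
      have hAx : VE (A * x) β := by
        have := hAv.mul hv
        have e : (1 : ℤ) + ((β : ℤ) - 1) = β := by ring
        rwa [e] at this
      rcases VG.split (hAx.ge.add hbv.ge) with h4 | h4
      · exfalso
        obtain ⟨hx0, y, hy⟩ := hx
        rw [← hA] at hy
        have h5 : IsSquare (x * (A * x + B) + x ^ 3) := ⟨y, by rw [← pow_two, hy]; ring⟩
        have h6 := (dom h2 (hv.mul h4) ((hv.pow 3).ge.mono (by push_cast; omega))).1 h5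
        have h7 := even_of_sq (hv.mul h4) h6
        rw [Int.even_iff] at h7
        omega
      · have e : (A * x) * (-B) = B * B + (-((A * x + B) * B)) := by ring
        rw [e, dom h2 (hbv.mul hbv) ((h4.mul hbv.ge).neg.mono (by omega))]
        exact ⟨B, rfl⟩
    · left
      exact ⟨by omega, pt_lin h2 hx hv hAv.ge hbv (by omega) (by omega)⟩
  refine ⟨⟨fun _ => rfl, fun _ => ?_⟩, ?_, ?_⟩
  · -- existence
    have hdv : VE (A ^ 2) 2 := by simpa using hAv.pow 2
    have h4B : VG (4 * B) 3 := by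
      have h1 := h4v.mul hbv
      exact h1.ge.mono (by omega)
    have hd : IsSquare (A ^ 2 + -(4 * B)) := by
      rw [dom h2 hdv (h4B.neg.mono (by norm_num))]
      exact ⟨A, pow_two A⟩
    obtain ⟨δ, hδ⟩ := hd
    have hδv : VG δ 1 := by
      refine VG.of_sq (k := 2) ?_ (by norm_num)
      rw [pow_two, ← hδ]
      exact (hdv.add_small (h4B.neg.mono (by norm_num))).ge
    have hroot : ∀ ε : ℚ_[p], ε * ε = 1 → ((-A + ε * δ) / 2) ^ 2 + A * ((-A + ε * δ) / 2) + B = 0 := by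
      intro ε hε
      field_simp
      linear_combination (δ ^ 2) * hε - hδ
    have hr1 : VG ((-A + 1 * δ) / 2) 1 := by
      have h1 : VG (-A + 1 * δ) 1 := by
        rw [one_mul]
        exact hAv.ge.neg.add hδv
      have h3 := h1.mul h2v.inv.ge
      rw [← div_eq_mul_inv] at h3
      simpa using h3
    have hmk : ∀ x : ℚ_[p], VE x 1 → x ^ 2 + A * x + B = 0 → OddAt p ((p : ℤ) * a') b := by
      intro x hxv hx
      refine ⟨hp, x, ⟨hxv.ne_zero, 0, ?_⟩, ?_⟩
      · rw [← hA, ← hB, hx]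
        ring
      · rw [hxv.val]
        exact odd_one
    rcases VG.split hr1 with h1 | h1
    · exact hmk _ h1 (hroot 1 (by ring))
    · have e : (-A + (-1) * δ) / 2 = -A + -((-A + 1 * δ) / 2) := by
        field_simp
        ring
      refine hmk ((-A + (-1) * δ) / 2) ?_ (hroot (-1) (by ring))
      rw [e]
      exact hAv.neg.add_small h1.neg
  · -- even valuation
    intro x hx he hr
    have hv := VE.of_ne hx.1
    rcases core x hx with ⟨_, h⟩ | ⟨h, _⟩ | ⟨h, h3⟩ | ⟨h, h3⟩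
    · exact h
    · rw [h] at he
      exact absurd he (by decide)
    · have h4 := even_of_sq (hbv.mul hv) h3
      have hβe : ¬ Odd β := by
        rw [Int.even_iff] at h4 he
        rw [Nat.odd_iff]
        omega
      rw [if_neg hβe] at hr
      unfold Pool.Agent.L7h19.EA.sq at hr
      have h5 := (isSquare_int h2 hbb).2 (of_decide_eq_true hr)
      rw [Nat.not_odd_iff_even] at hβe
      obtain ⟨m, hm⟩ := hβe
      have h6 : IsSquare B := by
        have e : B = ((p : ℚ_[p]) ^ m * (p : ℚ_[p]) ^ m) * b' := by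
          rw [hBe, hm, pow_add]
        rw [e]
        exact (sq_mul_left ⟨_, rfl⟩ (mul_ne_zero (pow_ne_zero _ hp0) (pow_ne_zero _ hp0))).2 h5
      exact (sq_mul_left h6 hbv.ne_zero).1 h3
    · have hβo : Odd β := by
        rw [h, Int.even_iff] at he
        rw [Nat.odd_iff]
        omega
      rw [if_pos hβo] at hr
      unfold Pool.Agent.L7h19.EA.sq at hr
      have h5 := (isSquare_int h2 (not_dvd_mul hp.out hna hbb)).2 (of_decide_eq_true hr)
      obtain ⟨m, hm⟩ := hβo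
      have e : (A * x) * (-B) = (((p : ℚ_[p]) ^ (m + 1) * (p : ℚ_[p]) ^ (m + 1)) *
          ((-a' * b' : ℤ) : ℚ_[p])) * x := by
        rw [hBe, hAe, hm]
        push_cast
        ring
      rw [e] at h3
      have h6 : IsSquare (((p : ℚ_[p]) ^ (m + 1) * (p : ℚ_[p]) ^ (m + 1)) *
          ((-a' * b' : ℤ) : ℚ_[p])) :=
        (sq_mul_left ⟨_, rfl⟩ (mul_ne_zero (pow_ne_zero _ hp0) (pow_ne_zero _ hp0))).2 h5
      refine (sq_mul_left h6 ?_).1 h3
      refine mul_ne_zero (mul_ne_zero (pow_ne_zero _ hp0) (pow_ne_zero _ hp0)) ?_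
      exact (VE_unit (p := p) (not_dvd_mul hp.out hna hbb)).ne_zero
  · -- the sign
    intro x hx ho hr _
    have hv := VE.of_ne hx.1
    have goal : (IsSquare (x * p) ↔ IsSquare ((-a' : ℤ) : ℚ_[p])) →
        (IsSquare (x * p) ↔ (!Pool.Agent.L7h19.EA.sq p (-a')) = false) := by
      intro h
      rw [h, isSquare_int h2 hna]
      unfold Pool.Agent.L7h19.EA.sq
      simp
    apply goal
    have hxp0 : x * (p : ℚ_[p]) ≠ 0 := mul_ne_zero hx.1 hp0
    rcases core x hx with ⟨h, h3⟩ | ⟨h, h3⟩ | ⟨h, h3⟩ | ⟨h, h3⟩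
    · exact absurd (even_of_sq hv h3) (Int.not_even_iff_odd.2 ho)
    · have e1 : x * p = -A * p + (x + A) * p := by ring
      have e2 : -A * (p : ℚ_[p]) = ((p : ℚ_[p]) * (p : ℚ_[p])) * ((-a' : ℤ) : ℚ_[p]) := by
        rw [hAe]
        push_cast
        ring
      rw [e1, dom h2 (hAv.neg.mul VE.prime) ((h3.mul VE.prime.ge).mono (by norm_num)), e2,
        sq_mul_left ⟨_, rfl⟩ (mul_ne_zero hp0 hp0)]
    · have h4 := even_of_sq (hbv.mul hv) h3
      have hβo : Odd β := by
        rw [Int.even_iff] at h4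
        rw [Int.odd_iff] at ho
        rw [Nat.odd_iff]
        omega
      rw [if_pos hβo] at hr
      unfold Pool.Agent.L7h19.EA.sq at hr
      have h5 := (isSquare_int h2 (not_dvd_mul hp.out hna hbb)).2 (of_decide_eq_true hr)
      obtain ⟨m, hm⟩ := hβo
      have e : B * x = ((p : ℚ_[p]) ^ m * (p : ℚ_[p]) ^ m) * ((b' : ℚ_[p]) * (x * p)) := by
        rw [hBe, hm]
        ring
      rw [e, sq_mul_left ⟨_, rfl⟩ (mul_ne_zero (pow_ne_zero _ hp0) (pow_ne_zero _ hp0))] at h3
      have h6 : IsSquare (((-a' : ℤ) : ℚ_[p]) * (b' : ℚ_[p])) := by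
        have := h5
        push_cast at this ⊢
        exact this
      rw [← sq_iff_of_mul h3 hb'0 hxp0, ← sq_iff_of_mul h6 hna0 hb'0]
    · have hβe : ¬ Odd β := by
        rw [h, Int.odd_iff] at ho
        rw [Nat.odd_iff]
        omega
      rw [if_neg hβe] at hr
      unfold Pool.Agent.L7h19.EA.sq at hr
      have h5 := (isSquare_int h2 hbb).2 (of_decide_eq_true hr)
      rw [Nat.not_odd_iff_even] at hβe
      obtain ⟨m, hm⟩ := hβe
      have e : (A * x) * (-B) = ((p : ℚ_[p]) ^ m * (p : ℚ_[p]) ^ m) *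
          ((b' : ℚ_[p]) * (((-a' : ℤ) : ℚ_[p]) * (x * p))) := by
        rw [hBe, hAe, hm]
        push_cast
        ring
      rw [e, sq_mul_left ⟨_, rfl⟩ (mul_ne_zero (pow_ne_zero _ hp0) (pow_ne_zero _ hp0)),
        sq_mul_left h5 hb'0] at h3
      exact (sq_iff_of_mul h3 hna0 hxp0).symm

end Pool.Agent.L7h65.EA.Four

namespace Pool.Agent.L7h65.EA

theorem s_N4 : Pool.Agent.L7h19.EA.S_N4 := Four.s_N4

end Pool.Agent.L7h65.EA
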