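import Pool.Agent.L7h24.EA.Loc

/-!
# Project EA, part N5
-/

set_option autoImplicit false
set_option linter.all false

namespace Pool.Agent.L7h65.EA

open Pool.Agent.L7h19.EA
open Pool.Agent.L7h24.EA

lemma not_dvd_mul {p : ℕ} (hp : p.Prime) {m n : ℤ} (h1 : ¬ (p : ℤ) ∣ m) (h2 : ¬ (p : ℤ) ∣ n) :
    ¬ (p : ℤ) ∣ m * n := fun h =>
  ((Nat.prime_iff_prime_int.1 hp).dvd_or_dvd h).elim h1 h2

lemma VG.of_sq {p : ℕ} [hp : Fact p.Prime] {w : ℚ_[p]} {k l : ℤ} (h : VG (w ^ 2) k)
    (hl : 2 * l ≤ k + 1) : VG w l := by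
  by_cases hw : w = 0
  · rw [hw]
    exact VG.zero l
  · have h1 := VE.of_ne hw
    have h3 := h.le_of_VE (h1.pow 2)
    push_cast at h3
    exact h1.ge.mono (by omega)

theorem s_N5 : S_N5 := by
  intro p hp a b h2 hc0 ha ha2 hb hc3
  obtain ⟨a', rfl⟩ := ha
  have hpz : (p : ℤ) ≠ 0 := by exact_mod_cast hp.out.ne_zero
  have hp0 : (p : ℚ_[p]) ≠ 0 := VE.prime.ne_zero
  have ha' : ¬ (p : ℤ) ∣ a' := by
    intro h
    apply ha2
    rw [pow_two]
    exact mul_dvd_mul_left _ h
  have hp2 : ¬ (p : ℤ) ∣ 2 := by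
    intro h
    have h6 : p ∣ 2 := by exact_mod_cast h
    exact h2 ((Nat.prime_dvd_prime_iff_eq hp.out Nat.prime_two).1 h6)
  set c : ℤ := ((p : ℤ) * a') ^ 2 - 4 * b with hc
  set γ : ℕ := padicValInt p c with hγ
  have hcv : VE (c : ℚ_[p]) γ := VE_padicValInt hc0
  obtain ⟨c', hc'⟩ : (p : ℤ) ^ γ ∣ c := padicValInt_dvd c
  have hcu : VE (c' : ℚ_[p]) 0 := by
    have h1 : (c' : ℚ_[p]) = ((p : ℚ_[p]) ^ γ)⁻¹ * (c : ℚ_[p]) := by
      rw [hc']
      push_cast
      rw [inv_mul_cancel_left₀ (pow_ne_zero _ hp0)]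
    rw [h1]
    have h3 := ((VE.prime (p := p)).pow γ).inv.mul hcv
    have e : (-((γ : ℤ) * 1) + (γ : ℤ)) = 0 := by ring
    rwa [e] at h3
  have hcc : ¬ (p : ℤ) ∣ c' := by
    intro h
    have h1 : VG (c' : ℚ_[p]) 1 := by
      have := VG_dvd (p := p) (n := c') (k := 1) (by simpa using h)
      exact_mod_cast this
    have := h1.le_of_VE hcu
    omega
  have hup : up p c = c' := by
    unfold up
    exact Int.ediv_eq_of_eq_mul_right (pow_ne_zero _ hpz) hc'
  rw [hup, Int.mul_ediv_cancel_left _ hpz]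
  -- valuations
  set A : ℚ_[p] := (((p : ℤ) * a' : ℤ) : ℚ_[p]) with hA
  have hAe : A = p * (a' : ℚ_[p]) := by
    rw [hA]
    push_cast
    ring
  have hAv : VE A 1 := by
    rw [hAe]
    simpa using (VE.prime (p := p)).mul (VE_unit ha')
  have h2v : VE (2 : ℚ_[p]) 0 := by
    have := VE_unit (p := p) hp2
    exact_mod_cast this
  have h20 : (2 : ℚ_[p]) ≠ 0 := h2v.ne_zero
  have h4v : VE (4 : ℚ_[p]) 0 := by
    have h1 := h2v.mul h2v
    have e : (2 : ℚ_[p]) * 2 = 4 := by norm_num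
    rwa [e, add_zero] at h1
  have h40 : (4 : ℚ_[p]) ≠ 0 := h4v.ne_zero
  have h4s : IsSquare (4 : ℚ_[p]) := ⟨2, by norm_num⟩
  have hγ3 : 3 ≤ γ := by
    have h1 : VG (c : ℚ_[p]) 3 := by
      have := VG_dvd (p := p) (n := c) (k := 3) hc3
      exact_mod_cast this
    have := h1.le_of_VE hcv
    omega
  set C : ℚ_[p] := (c : ℚ_[p]) with hC
  have hCA : C = A ^ 2 - 4 * (b : ℚ_[p]) := by
    rw [hC, hc, hA]
    push_cast
    ring
  have h4b : VE (4 * (b : ℚ_[p])) 2 := by
    have e : 4 * (b : ℚ_[p]) = A ^ 2 + -C := by rw [hCA]; ring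
    rw [e]
    have h1 : VE (A ^ 2) 2 := by simpa using hAv.pow 2
    exact h1.add_small (hcv.ge.neg.mono (by omega))
  have hbv : VE (b : ℚ_[p]) 2 := by
    have e : (b : ℚ_[p]) = (4 : ℚ_[p])⁻¹ * (4 * (b : ℚ_[p])) := by
      rw [inv_mul_cancel_left₀ h40]
    rw [e]
    have h1 := h4v.inv.mul h4b
    simpa using h1
  have hbs : IsSquare (b : ℚ_[p]) := by
    have e : 4 * (b : ℚ_[p]) = A ^ 2 + -C := by rw [hCA]; ring
    have h1 : VE (A ^ 2) 2 := by simpa using hAv.pow 2
    have h3 : IsSquare (4 * (b : ℚ_[p])) := by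
      rw [e, dom h2 h1 (hcv.ge.neg.mono (by omega))]
      exact ⟨A, pow_two A⟩
    exact (sq_mul_left h4s h40).1 h3
  have hC4 : VE (C / 4) γ := by
    have h1 := hcv.mul h4v.inv
    rw [← div_eq_mul_inv] at h1
    simpa using h1
  have hA2 : VE (A / 2) 1 := by
    have h1 := hAv.mul h2v.inv
    rw [← div_eq_mul_inv] at h1
    simpa using h1
  -- the points of even valuation
  have hev : ∀ x : ℚ_[p], Pt p ((p : ℤ) * a') b x → x.valuation ≠ 1 → IsSquare x := by
    intro x hx hne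
    have hv := VE.of_ne hx.1
    rcases lt_or_gt_of_ne hne with h | h
    · exact pt_cub h2 hx hv hAv.ge hbv.ge (by omega) (by omega)
    · have h3 := pt_lin h2 hx hv hAv.ge hbv (by omega) (by omega)
      exact (sq_mul_left hbs hbv.ne_zero).1 h3
  have hone : ∀ x : ℚ_[p], Pt p ((p : ℤ) * a') b x → Odd x.valuation → x.valuation = 1 := by
    intro x hx ho
    by_contra h
    have h1 := even_of_sq (VE.of_ne hx.1) (hev x hx h)
    exact (Int.not_even_iff_odd.2 ho) h1
  -- the points of odd valuation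
  have hodd : ∀ x : ℚ_[p], Pt p ((p : ℤ) * a') b x → Odd x.valuation →
      VG (x + A / 2) 2 ∧ (Odd γ → IsSquare (-(x * (C / 4)))) ∧ (¬ Odd γ → IsSquare (C / 4)) := by
    intro x hx ho
    have hv1 := hone x hx ho
    have hv : VE x 1 := by
      have := VE.of_ne hx.1
      rwa [hv1] at this
    obtain ⟨hx0, y, hy⟩ := hx
    set w : ℚ_[p] := x + A / 2 with hw
    have he : x ^ 2 + A * x + (b : ℚ_[p]) = w ^ 2 - C / 4 := by
      rw [hw, hCA]
      field_simp
      ring
    rw [← hA, he] at hy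
    -- the square of w
    have hw2 : VG (w ^ 2) γ := by
      by_contra hcon
      have hw0 : w ≠ 0 := by
        intro h
        apply hcon
        rw [h, zero_pow two_ne_zero]
        exact VG.zero _
      have hwv := VE.of_ne hw0
      have hwv2 : VE (w ^ 2) (2 * w.valuation) := by simpa using hwv.pow 2
      have hlt : 2 * w.valuation < γ := by
        by_contra h
        push Not at h
        exact hcon (hwv2.ge.mono h)
      have h3 : IsSquare (x * w ^ 2 + -(x * (C / 4))) := ⟨y, by rw [← pow_two, hy]; ring⟩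
      have h4 := (dom h2 (hv.mul hwv2) ((hv.mul hC4).ge.neg.mono (by omega))).1 h3
      have h5 := even_of_sq (hv.mul hwv2) h4
      rw [Int.even_iff] at h5
      omega
    refine ⟨VG.of_sq hw2 (by omega), ?_, ?_⟩
    · rintro ⟨m, hm⟩
      have hw3 : VG w (m + 1) := VG.of_sq hw2 (by omega)
      have hw4 : VG (w ^ 2) (γ + 1) := (hw3.pow 2).mono (by push_cast; omega)
      have h3 : IsSquare (-(x * (C / 4)) + x * w ^ 2) := ⟨y, by rw [← pow_two, hy]; ring⟩
      exact (dom h2 (hv.mul hC4).neg ((hv.ge.mul hw4).mono (by omega))).1 h3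
    · intro hγo
      have hγe : Even (γ : ℤ) := by
        rw [Nat.not_odd_iff_even] at hγo
        exact_mod_cast hγo
      have hge : VG (w ^ 2 - C / 4) (γ + 1) := by
        by_cases h0 : w ^ 2 - C / 4 = 0
        · rw [h0]
          exact VG.zero _
        · have hev2 := VE.of_ne h0
          have h3 : IsSquare (x * (w ^ 2 - C / 4)) := ⟨y, by rw [← pow_two, hy]⟩
          have h4 := even_of_sq (hv.mul hev2) h3
          have h5 : VG (w ^ 2 - C / 4) γ := hw2.sub hC4.ge
          have h6 := h5.le_of_VE hev2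
          rw [Int.even_iff] at h4 hγe
          exact hev2.ge.mono (by omega)
      have h7 : IsSquare (C / 4 + (w ^ 2 - C / 4)) := ⟨w, by ring⟩
      exact (dom h2 hC4 hge).1 h7
  refine ⟨⟨?_, ?_⟩, ?_, ?_⟩
  · rintro ⟨_, x, hx, ho⟩
    obtain ⟨hw, g1, g2⟩ := hodd x hx ho
    have hv : VE x 1 := by
      have := VE.of_ne hx.1
      rwa [hone x hx ho] at this
    by_cases hγo : Odd γ
    · rw [if_pos hγo]
      have h3 := g1 hγo
      -- x is close to - A / 2
      have e1 : -(x * (C / 4)) = (A / 2) * (C / 4) + -((x + A / 2) * (C / 4)) := by ring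
      rw [e1] at h3
      have h4 := (dom h2 (hA2.mul hC4) ((hw.mul hC4.ge).neg.mono (by omega))).1 h3
      obtain ⟨m, hm⟩ := hγo
      have e2 : (A / 2) * (C / 4) = ((p : ℚ_[p]) ^ (m + 1) / 4 * ((p : ℚ_[p]) ^ (m + 1) / 4)) *
          (2 * (a' : ℚ_[p]) * c') := by
        rw [hAe, hC, hc', hm]
        push_cast
        field_simp
        ring
      rw [e2, sq_mul_left ⟨_, rfl⟩ (mul_ne_zero (div_ne_zero (pow_ne_zero _ hp0) h40)
        (div_ne_zero (pow_ne_zero _ hp0) h40))] at h4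
      unfold Pool.Agent.L7h19.EA.sq
      apply decide_eq_true
      rw [← isSquare_int h2 (not_dvd_mul hp.out (not_dvd_mul hp.out hp2 ha') hcc)]
      push_cast
      exact h4
    · rw [if_neg hγo]
      have h3 := g2 hγo
      rw [Nat.not_odd_iff_even] at hγo
      obtain ⟨m, hm⟩ := hγo
      have e2 : C / 4 = ((p : ℚ_[p]) ^ m / 2 * ((p : ℚ_[p]) ^ m / 2)) * c' := by
        rw [hC, hc', hm]
        push_cast
        field_simp
        ring
      rw [e2, sq_mul_left ⟨_, rfl⟩ (mul_ne_zero (div_ne_zero (pow_ne_zero _ hp0) h20)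
        (div_ne_zero (pow_ne_zero _ hp0) h20))] at h3
      unfold Pool.Agent.L7h19.EA.sq
      apply decide_eq_true
      rw [← isSquare_int h2 hcc]
      exact h3
  · intro h
    by_cases hγo : Odd γ
    · rw [if_pos hγo] at h
      unfold Pool.Agent.L7h19.EA.sq at h
      have h3 := (isSquare_int h2 (not_dvd_mul hp.out (not_dvd_mul hp.out hp2 ha') hcc)).2
        (of_decide_eq_true h)
      obtain ⟨u, hu⟩ := h3
      push_cast at hu
      obtain ⟨m, hm⟩ := hγo
      refine ⟨hp, -(A / 2), ⟨neg_ne_zero.2 hA2.ne_zero, (p : ℚ_[p]) ^ (m + 1) / 4 * u, ?_⟩, ?_⟩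
      · rw [← hA]
        have e1 : -(A / 2) * ((-(A / 2)) ^ 2 + A * -(A / 2) + (b : ℚ_[p])) = (A / 2) * (C / 4) := by
          rw [hCA]
          field_simp
          ring
        have e2 : (A / 2) * (C / 4) = ((p : ℚ_[p]) ^ (m + 1) / 4 * ((p : ℚ_[p]) ^ (m + 1) / 4)) *
            (2 * (a' : ℚ_[p]) * c') := by
          rw [hAe, hC, hc', hm]
          push_cast
          field_simp
          ring
        rw [e1, e2, hu]
        ring
      · rw [hA2.neg.val]
        exact odd_one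
    · rw [if_neg hγo] at h
      unfold Pool.Agent.L7h19.EA.sq at h
      have h3 := (isSquare_int h2 hcc).2 (of_decide_eq_true h)
      obtain ⟨u, hu⟩ := h3
      rw [Nat.not_odd_iff_even] at hγo
      obtain ⟨m, hm⟩ := hγo
      -- a square root of C
      set δ : ℚ_[p] := (p : ℚ_[p]) ^ m * u with hδ
      have hδ2 : δ * δ = C := by
        rw [hδ, hC, hc', hm]
        push_cast
        rw [hu]
        ring
      have hδv : VG δ 2 := by
        refine VG.of_sq (k := γ) ?_ (by omega)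
        rw [pow_two, hδ2]
        exact hcv.ge
      have hxv : VE ((-A + δ) / 2) 1 := by
        have h4 : VE (-A + δ) 1 := hAv.neg.add_small (hδv.mono (by norm_num))
        have h5 := h4.mul h2v.inv
        rw [← div_eq_mul_inv] at h5
        simpa using h5
      refine ⟨hp, (-A + δ) / 2, ⟨hxv.ne_zero, 0, ?_⟩, ?_⟩
      · rw [← hA]
        have e1 : ((-A + δ) / 2) ^ 2 + A * ((-A + δ) / 2) + (b : ℚ_[p]) = 0 := by
          have e2 : δ * δ = A ^ 2 - 4 * (b : ℚ_[p]) := by rw [hδ2, hCA]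
          field_simp
          linear_combination e2
        rw [e1]
        ring
      · rw [hxv.val]
        exact odd_one
  · intro x hx he _
    refine hev x hx fun h => ?_
    rw [h] at he
    exact absurd he (by decide)
  · intro x hx ho _ _
    obtain ⟨hw, -, -⟩ := hodd x hx ho
    have e1 : x * p = -(A / 2) * p + (x + A / 2) * p := by ring
    have e2 : -(A / 2) * (p : ℚ_[p]) = ((p : ℚ_[p]) / 2 * ((p : ℚ_[p]) / 2)) *
        (-2 * (a' : ℚ_[p])) := by
      rw [hAe]
      field_simp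
    have hm2 : ¬ (p : ℤ) ∣ -2 * a' := not_dvd_mul hp.out (by rwa [dvd_neg]) ha'
    rw [e1, dom h2 (hA2.neg.mul VE.prime) ((hw.mul VE.prime.ge).mono (by norm_num)), e2,
      sq_mul_left ⟨_, rfl⟩ (mul_ne_zero (div_ne_zero hp0 h20) (div_ne_zero hp0 h20))]
    have h3 := isSquare_int h2 hm2
    push_cast at h3
    rw [h3]
    unfold Pool.Agent.L7h19.EA.sq
    simp

end Pool.Agent.L7h65.EA
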