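import Pool.Agent.L7h19.EA.Stm
import Pool.Agent.L7h50.FD.Whd

/-!
# Project EA, part WHJ: the joint mean values
-/

set_option autoImplicit false
set_option linter.unusedSectionVars false

namespace Pool.Agent.L7h65.EA

open Finset Polynomial Pool.Agent.W307.RT Pool.Agent.L7h19.RP Pool.Agent.L7h19.IS
open Pool.Agent.W262.RK hiding s1
open Pool.Agent.L7h19.EA
open Pool.Agent.L7h19.FD (Pat WP)
open Pool.Agent.L7h19.FT (Sqr S_UP2 S_UP02 S_SQ aP bP PSm mu)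
open Pool.Agent.L7h50.FD (PB pat_iff pat_iff_not)

lemma sgb_pm (k : Bool) : sgb k = 1 ∨ sgb k = -1 := by
  cases k
  · left; simp [sgb]
  · right; simp [sgb]

lemma sqr_field {f A B : ℤ[X]} (hf : Irreducible f) (hd : 0 < f.natDegree) (hA : ¬ f ∣ A)
    (h1 : Sqr f A) (h2 : Sqr f (A * B)) : Sqr f B := by
  have hprim : f.IsPrimitive := hf.isPrimitive (by omega)
  have hirr : Irreducible (f.map (Int.castRingHom ℚ)) :=
    (IsPrimitive.Int.irreducible_iff_irreducible_map_cast hprim).1 hf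
  have := Fact.mk hirr
  have hA0 : AdjoinRoot.mk (f.map (Int.castRingHom ℚ)) (A.map (Int.castRingHom ℚ)) ≠ 0 := by
    intro h0
    rw [AdjoinRoot.mk_eq_zero] at h0
    exact hA ((IsPrimitive.Int.dvd_iff_map_cast_dvd_map_cast f A hprim).2 h0)
  unfold Sqr at h1 h2 ⊢
  rw [Polynomial.map_mul, map_mul] at h2
  obtain ⟨u, hu⟩ := h1
  obtain ⟨w, hw⟩ := h2
  have hu0 : u ≠ 0 := by
    rintro rfl
    exact hA0 (by rw [hu, mul_zero])
  refine ⟨w / u, ?_⟩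
  rw [div_mul_div_comm, ← hw, ← hu, mul_div_cancel_left₀ _ hA0]

lemma sqr_mul {f A B : ℤ[X]} (h1 : Sqr f A) (h2 : Sqr f B) : Sqr f (A * B) := by
  unfold Sqr at h1 h2 ⊢
  rw [Polynomial.map_mul, map_mul]
  exact h1.mul h2

lemma s1_01 (f A : ℤ[X]) : (s1 f A = 1 ∧ Sqr f A) ∨ (s1 f A = 0 ∧ ¬ Sqr f A) := by
  unfold s1
  by_cases h : Sqr f A
  · left; exact ⟨if_pos h, h⟩
  · right; exact ⟨if_neg h, h⟩

lemma ms_nonneg {f A B : ℤ[X]} (hf : Irreducible f) (hd : 0 < f.natDegree) (hA : ¬ f ∣ A)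
    (hB : ¬ f ∣ B) (k1 k2 : Bool) : 0 ≤ ms f A B k1 k2 := by
  unfold ms
  rcases s1_01 f A with ⟨a, a'⟩ | ⟨a, a'⟩ <;> rcases s1_01 f B with ⟨b, b'⟩ | ⟨b, b'⟩ <;>
    rcases s1_01 f (A * B) with ⟨c, c'⟩ | ⟨c, c'⟩
  · rw [a, b, c]
    rcases sgb_pm k1 with h | h <;> rcases sgb_pm k2 with h' | h' <;> rw [h, h'] <;> norm_num
  · exact absurd (sqr_mul a' b') c'
  · exact absurd (sqr_field hf hd hA a' c') b'
  · rw [a, b, c]
    rcases sgb_pm k1 with h | h <;> rcases sgb_pm k2 with h' | h' <;> rw [h, h'] <;> norm_num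
  · rw [mul_comm] at c'
    exact absurd (sqr_field hf hd hB b' c') a'
  · rw [a, b, c]
    rcases sgb_pm k1 with h | h <;> rcases sgb_pm k2 with h' | h' <;> rw [h, h'] <;> norm_num
  · rw [a, b, c]
    rcases sgb_pm k1 with h | h <;> rcases sgb_pm k2 with h' | h' <;> rw [h, h'] <;> norm_num
  · rw [a, b, c]
    norm_num

/-- the sign of a symbol -/
lemma sgb_Jr {a : ℤ} {p : ℕ} (hp : p.Prime) (h : ¬ (p : ℤ) ∣ a) :
    Jr a p = sgb (decide (jacobiSym a p = -1)) := by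
  have _ := Fact.mk hp
  have h1 : a.gcd p = 1 := by
    rw [Int.gcd_comm, ← Int.isCoprime_iff_gcd_eq_one]
    exact (Prime.coprime_iff_not_dvd (Nat.prime_iff_prime_int.1 hp)).2 h
  unfold Jr sgb
  rcases jacobiSym.eq_one_or_neg_one h1 with h2 | h2 <;> rw [h2] <;> norm_num

lemma sgb_inj {a b : Bool} (h : sgb a = sgb b) : a = b := by
  cases a <;> cases b <;> simp [sgb] at h ⊢ <;> linarith

variable {J : Type} [Fintype J] [DecidableEq J]

lemma kk0 (K1 K2 : J → ℤ[X]) (j : J) : kk K1 K2 j 0 = 1 := rfl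
lemma kk1 (K1 K2 : J → ℤ[X]) (j : J) : kk K1 K2 j 1 = K1 j := rfl
lemma kk2 (K1 K2 : J → ℤ[X]) (j : J) : kk K1 K2 j 2 = K2 j := rfl

lemma PB0 (K1 K2 : J → ℤ[X]) (j : J) (ν : ℤ) (p : ℕ) : PB (kk K1 K2) j ν p 0 = false := by
  unfold PB
  rw [kk0, eval_one, jacobiSym.one_left]
  decide

lemma count_pat : ∀ (B : Pat) (k1 k2 : Bool), B 0 = false →
    ((if (xor (B 0) (B 1) = k1 ∧ xor (B 0) (B 2) = k2) then (1 : ℤ) else 0) +
      (if (xor (!(B 0)) (!(B 1)) = k1 ∧ xor (!(B 0)) (!(B 2)) = k2) then (1 : ℤ) else 0)) * 2 =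
    (1 + (if k1 = true then -1 else 1) * (if B 1 = true then -1 else 1)) *
      (1 + (if k2 = true then -1 else 1) * (if B 2 = true then -1 else 1)) := by
  decide

lemma count_sgb (B : Pat) (k1 k2 : Bool) (h : B 0 = false) :
    ((if (xor (B 0) (B 1) = k1 ∧ xor (B 0) (B 2) = k2) then (1 : ℝ) else 0) +
      (if (xor (!(B 0)) (!(B 1)) = k1 ∧ xor (!(B 0)) (!(B 2)) = k2) then (1 : ℝ) else 0)) / 2 =
    (1 + sgb k1 * sgb (B 1) + sgb k2 * sgb (B 2) + sgb k1 * sgb k2 * (sgb (B 1) * sgb (B 2))) / 4 := by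
  have h1 := count_pat B k1 k2 h
  have h2 : ((((if (xor (B 0) (B 1) = k1 ∧ xor (B 0) (B 2) = k2) then (1 : ℤ) else 0) +
      (if (xor (!(B 0)) (!(B 1)) = k1 ∧ xor (!(B 0)) (!(B 2)) = k2) then (1 : ℤ) else 0)) * 2 : ℤ) : ℝ) =
    (((1 + (if k1 = true then -1 else 1) * (if B 1 = true then -1 else 1)) *
      (1 + (if k2 = true then -1 else 1) * (if B 2 = true then -1 else 1)) : ℤ) : ℝ) := by rw [h1]
  push_cast at h2
  unfold sgb
  linarith [h2]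

/-- the joint sum -/
lemma sum_joint (f K1 K2 : J → ℤ[X]) (c : ℕ) (j : J) (k1 k2 : Bool) (p : ℕ) (hp : p.Prime)
    (h : ∀ ν : ℤ, (p : ℤ) ∣ (f j).eval ν → ¬ (p : ℤ) ∣ (K1 j).eval ν ∧ ¬ (p : ℤ) ∣ (K2 j).eval ν) :
    ∑ π ∈ univ.filter (fun π : Pat => xor (π 0) (π 1) = k1 ∧ xor (π 0) (π 2) = k2),
      WP (fun _ : J => 3) f (kk K1 K2) c j π p =
    (gaw (f j) 1 c p + sgb k1 * bw (f j) (K1 j) 1 c p + sgb k2 * bw (f j) (K2 j) 1 c p +
      sgb k1 * sgb k2 * bw (f j) (K1 j * K2 j) 1 c p) / 4 := by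
  classical
  rw [Pool.Agent.L7h50.FD.sum_WP (fun _ : J => 3) f (kk K1 K2) c j p
    (fun π : Pat => xor (π 0) (π 1) = k1 ∧ xor (π 0) (π 2) = k2)]
  simp only [if_true]
  unfold gaw bw Pool.Agent.H474R2.PG.rho
  have e1 : ∀ (R : Finset ℕ) (x a b d : ℝ) (F1 F2 F3 : ℕ → ℝ),
      (x * (R.card : ℝ) + a * (x * ∑ ν ∈ R, F1 ν) + b * (x * ∑ ν ∈ R, F2 ν) +
        d * (x * ∑ ν ∈ R, F3 ν)) / 4 =
      x * ∑ ν ∈ R, (1 + a * F1 ν + b * F2 ν + d * F3 ν) / 4 := by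
    intro R x a b d F1 F2 F3
    rw [← sum_div, sum_add_distrib, sum_add_distrib, sum_add_distrib, ← mul_sum, ← mul_sum,
      ← mul_sum, card_eq_sum_ones]
    push_cast
    ring
  rw [e1]
  congr 1
  refine sum_congr rfl fun ν hν => ?_
  obtain ⟨hν1, hν2⟩ := h (ν : ℤ) (mem_filter.1 hν).2
  have e2 : Jr ((K1 j * K2 j).eval (ν : ℤ)) p = Jr ((K1 j).eval (ν : ℤ)) p * Jr ((K2 j).eval (ν : ℤ)) p := by
    unfold Jr
    rw [eval_mul, jacobiSym.mul_left]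
    push_cast
    ring
  rw [e2, sgb_Jr hp hν1, sgb_Jr hp hν2]
  exact count_sgb (PB (kk K1 K2) j (ν : ℤ) p) k1 k2 (PB0 K1 K2 j ν p)

theorem s_WHJ (hU : S_UP2) (hU0 : S_UP02) (hSQ : S_SQ) : S_WHJ := by
  intro J _ _ f K1 K2 c hf hd hK1 hK2 j k1 k2
  classical
  refine ⟨ms_nonneg (hf j) (hd j) (hK1 j) (hK2 j) k1 k2, ?_⟩
  have hK12 : ¬ f j ∣ K1 j * K2 j := fun h => ((hf j).prime.dvd_or_dvd h).elim (hK1 j) (hK2 j)
  -- the three polynomials
  have key : ∀ κ : ℤ[X], ¬ f j ∣ κ → ∃ z0 : ℕ, (Sqr (f j) κ → ∀ p : ℕ, p.Prime → z0 < p → ∀ ν : ℤ,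
      (p : ℤ) ∣ (f j).eval ν → jacobiSym (κ.eval ν) p = 1) ∧
      (∀ z : ℕ, z0 ≤ z → ∃ C : ℝ, 0 ≤ C ∧ ∀ y : ℕ, 2 ≤ y →
        |∑ p ∈ PS z y, bw (f j) κ 1 c p - s1 (f j) κ * ∑ p ∈ PS z y, gaw (f j) 1 c p| ≤ C) := by
    intro κ hκ
    by_cases hs : Sqr (f j) κ
    · obtain ⟨z0, h⟩ := hSQ (f j) κ (hf j) (hd j) hκ hs
      refine ⟨z0, fun _ => h, fun z hz => ⟨0, le_rfl, fun y _ => ?_⟩⟩
      have e1 : ∑ p ∈ PS z y, bw (f j) κ 1 c p = ∑ p ∈ PS z y, gaw (f j) 1 c p :=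
        sum_congr rfl fun p hp =>
          Pool.Agent.L7h19.FT.bw_sq (h p (PSm hp).1 (by have := (PSm hp).2; omega))
      have e2 : s1 (f j) κ = 1 := if_pos hs
      rw [e1, e2, one_mul, sub_self, abs_zero]
    · obtain ⟨z0, h⟩ := hU0 (f j) κ c (hf j) (hd j) hκ hs
      refine ⟨z0, fun h' => absurd h' hs, fun z hz => ?_⟩
      obtain ⟨C1, hC1⟩ := h z hz
      refine ⟨|C1|, abs_nonneg _, fun y _ => ?_⟩
      have e2 : s1 (f j) κ = 0 := if_neg hs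
      rw [e2, zero_mul, sub_zero]
      rcases Nat.lt_or_ge z y with h' | h'
      · exact (hC1 y h').trans (le_abs_self _)
      · have : PS z y = ∅ := by
          ext p
          simp only [notMem_empty, iff_false]
          intro hp
          have := mem_PS.1 hp
          omega
        rw [this, sum_empty, abs_zero]
        exact abs_nonneg _
  obtain ⟨z1, hz1, hz1'⟩ := key (K1 j) (hK1 j)
  obtain ⟨z2, hz2, hz2'⟩ := key (K2 j) (hK2 j)
  obtain ⟨z3, hz3, hz3'⟩ := key (K1 j * K2 j) hK12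
  obtain ⟨B1, hB1⟩ := large_nd (hf j) (hd j) (hK1 j)
  obtain ⟨B2, hB2⟩ := large_nd (hf j) (hd j) (hK2 j)
  obtain ⟨G, zb, -, hW, -⟩ := Pool.Agent.L7h19.FT.wh hU hU0 hSQ (fun _ : Unit => f j)
    (fun _ : Unit => (1 : ℤ[X])) (fun _ => hf j) (fun _ => hd j) (fun _ => not_dvd_one (hf j)) c
  have hnd : ∀ p : ℕ, B1 + B2 < p → ∀ ν : ℤ, (p : ℤ) ∣ (f j).eval ν →
      ¬ (p : ℤ) ∣ (K1 j).eval ν ∧ ¬ (p : ℤ) ∣ (K2 j).eval ν := fun p hp ν hν =>
    ⟨hB1 p (by omega) ν hν, hB2 p (by omega) ν hν⟩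
  refine ⟨z1 + z2 + z3 + B1 + B2 + zb + c + 2, ?_, ?_⟩
  · intro hms p hp hzp π hπ1 hπ2
    by_contra hne
    have h1 : ∃ ν : ℤ, (p : ℤ) ∣ (f j).eval ν ∧ (Jr ((K1 j).eval ν) p = sgb k1 ∧
        Jr ((K2 j).eval ν) p = sgb k2) := by
      by_contra hno
      push Not at hno
      apply hne
      unfold WP
      refine mul_eq_zero_of_right _ (sum_eq_zero fun ν hν => ?_)
      have hν2 := (mem_filter.1 hν).2
      have hno' := hno (ν : ℤ) hν2
      obtain ⟨n1, n2⟩ := hnd p (by omega) (ν : ℤ) hν2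
      rw [if_pos rfl]
      have hP : ∀ B : Pat, B = PB (kk K1 K2) j (ν : ℤ) p ∨
          B = (fun i => !(PB (kk K1 K2) j (ν : ℤ) p i)) → B = π → False := by
        intro B hB hBπ
        have hb0 := PB0 K1 K2 j (ν : ℤ) p
        have hb1 : PB (kk K1 K2) j (ν : ℤ) p 1 = k1 := by
          rcases hB with hB | hB
          · rw [← hπ1, ← hBπ, hB, hb0]
            simp
          · rw [← hπ1, ← hBπ, hB]
            simp only [hb0]
            simp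
        have hb2 : PB (kk K1 K2) j (ν : ℤ) p 2 = k2 := by
          rcases hB with hB | hB
          · rw [← hπ2, ← hBπ, hB, hb0]
            simp
          · rw [← hπ2, ← hBπ, hB]
            simp only [hb0]
            simp
        refine hno' ?_ ?_
        · rw [sgb_Jr hp n1, ← hb1]
          rfl
        · rw [sgb_Jr hp n2, ← hb2]
          rfl
      rw [if_neg, if_neg, add_zero, zero_div]
      · intro hh
        exact hP _ (Or.inr rfl) (((pat_iff_not (fun i => jacobiSym ((kk K1 K2 j i).eval (ν : ℤ)) p = -1) π).1 hh).symm)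
      · intro hh
        exact hP _ (Or.inl rfl) (((pat_iff (fun i => jacobiSym ((kk K1 K2 j i).eval (ν : ℤ)) p = -1) π).1 hh).symm)
    obtain ⟨ν, hν, hj1, hj2⟩ := h1
    have a1 : s1 (f j) (K1 j) = 0 ∨ (s1 (f j) (K1 j) = 1 ∧ sgb k1 = 1) := by
      rcases s1_01 (f j) (K1 j) with ⟨a, a'⟩ | ⟨a, a'⟩
      · right
        refine ⟨a, ?_⟩
        rw [← hj1]
        unfold Jr
        rw [hz1 a' p hp (by omega) ν hν]
        norm_num
      · exact Or.inl a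
    have a2 : s1 (f j) (K2 j) = 0 ∨ (s1 (f j) (K2 j) = 1 ∧ sgb k2 = 1) := by
      rcases s1_01 (f j) (K2 j) with ⟨a, a'⟩ | ⟨a, a'⟩
      · right
        refine ⟨a, ?_⟩
        rw [← hj2]
        unfold Jr
        rw [hz2 a' p hp (by omega) ν hν]
        norm_num
      · exact Or.inl a
    have a3 : s1 (f j) (K1 j * K2 j) = 0 ∨ (s1 (f j) (K1 j * K2 j) = 1 ∧ sgb k1 * sgb k2 = 1) := by
      rcases s1_01 (f j) (K1 j * K2 j) with ⟨a, a'⟩ | ⟨a, a'⟩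
      · right
        refine ⟨a, ?_⟩
        have h3 := hz3 a' p hp (by omega) ν hν
        rw [eval_mul, jacobiSym.mul_left] at h3
        rw [← hj1, ← hj2]
        unfold Jr
        exact_mod_cast h3
      · exact Or.inl a
    unfold ms at hms
    rcases a1 with a1 | ⟨a1, b1⟩ <;> rcases a2 with a2 | ⟨a2, b2⟩ <;> rcases a3 with a3 | ⟨a3, b3⟩ <;>
      rw [a1, a2, a3] at hms <;> nlinarith
  · intro z hz
    obtain ⟨C1, hC1, h1⟩ := hz1' z (by omega)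
    obtain ⟨C2, hC2, h2⟩ := hz2' z (by omega)
    obtain ⟨C3, hC3, h3⟩ := hz3' z (by omega)
    obtain ⟨C0, h0⟩ := hW z (by omega) ()
    have hmsn := ms_nonneg (hf j) (hd j) (hK1 j) (hK2 j) k1 k2
    refine ⟨ms (f j) (K1 j) (K2 j) k1 k2 * C0 + (C1 + C2 + C3) / 4, fun y hy => ?_⟩
    have hg : ∑ p ∈ PS z y, gaw (f j) 1 c p ≤ Real.log (Real.log y) + C0 := by
      have h4 := (h0 y hy).1
      have hmu : mu (f j) 1 = 1 := by
        unfold mu
        refine if_pos ?_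
        unfold Sqr
        rw [Polynomial.map_one, map_one]
        exact ⟨1, by rw [mul_one]⟩
      rw [hmu, one_mul] at h4
      refine le_trans (le_of_eq ?_) h4
      refine sum_congr rfl fun p _ => ?_
      unfold aP
      rw [bw_one]
      ring
    have e1 : ∑ p ∈ PS z y, ∑ π ∈ univ.filter (fun π : Pat => xor (π 0) (π 1) = k1 ∧ xor (π 0) (π 2) = k2),
        WP (fun _ : J => 3) f (kk K1 K2) c j π p =
        (∑ p ∈ PS z y, gaw (f j) 1 c p + sgb k1 * ∑ p ∈ PS z y, bw (f j) (K1 j) 1 c p +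
          sgb k2 * ∑ p ∈ PS z y, bw (f j) (K2 j) 1 c p +
          sgb k1 * sgb k2 * ∑ p ∈ PS z y, bw (f j) (K1 j * K2 j) 1 c p) / 4 := by
      rw [mul_sum, mul_sum, mul_sum, ← sum_add_distrib, ← sum_add_distrib, ← sum_add_distrib, sum_div]
      refine sum_congr rfl fun p hp => ?_
      obtain ⟨hp1, hp2⟩ := PSm hp
      exact sum_joint f K1 K2 c j k1 k2 p hp1 (hnd p (by omega))
    rw [e1]
    have g1 := abs_le.1 (h1 y hy)
    have g2 := abs_le.1 (h2 y hy)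
    have g3 := abs_le.1 (h3 y hy)
    set g := ∑ p ∈ PS z y, gaw (f j) 1 c p with hgdef
    set T1 := ∑ p ∈ PS z y, bw (f j) (K1 j) 1 c p with hT1
    set T2 := ∑ p ∈ PS z y, bw (f j) (K2 j) 1 c p with hT2
    set T3 := ∑ p ∈ PS z y, bw (f j) (K1 j * K2 j) 1 c p with hT3
    have u1 : sgb k1 * T1 ≤ sgb k1 * (s1 (f j) (K1 j) * g) + C1 := by
      rcases sgb_pm k1 with h | h <;> rw [h] <;> linarith [g1.1, g1.2]
    have u2 : sgb k2 * T2 ≤ sgb k2 * (s1 (f j) (K2 j) * g) + C2 := by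
      rcases sgb_pm k2 with h | h <;> rw [h] <;> linarith [g2.1, g2.2]
    have u3 : sgb k1 * sgb k2 * T3 ≤ sgb k1 * sgb k2 * (s1 (f j) (K1 j * K2 j) * g) + C3 := by
      rcases sgb_pm k1 with h | h <;> rcases sgb_pm k2 with h' | h' <;> rw [h, h'] <;>
        linarith [g3.1, g3.2]
    have u4 : ms (f j) (K1 j) (K2 j) k1 k2 * g ≤ ms (f j) (K1 j) (K2 j) k1 k2 *
        (Real.log (Real.log y) + C0) := mul_le_mul_of_nonneg_left hg hmsn
    have u5 : ms (f j) (K1 j) (K2 j) k1 k2 * g = (g + sgb k1 * (s1 (f j) (K1 j) * g) +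
        sgb k2 * (s1 (f j) (K2 j) * g) + sgb k1 * sgb k2 * (s1 (f j) (K1 j * K2 j) * g)) / 4 := by
      unfold ms
      ring
    linarith

end Pool.Agent.L7h65.EA
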